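import Pool.Agent.Lib.MP_66ff79_co.Data

/-!
# The finite computations (MP_66ff79_co)
-/

set_option autoImplicit false

namespace Pool.Agent.Lib.MP_66ff79_co

/-- `dfs v fuel x al par`: no chordless path which extends the current one (last vertex `x`, parity `par`,
admissible vertices `al`) reaches `v` with odd length. -/
def dfs (v : ℕ) : ℕ → ℕ → ℕ → Bool → Bool
  | 0, _, _, _ => false
  | fuel + 1, x, al, par =>
    (nbrs.getD x []).all fun w =>
      !(al.testBit w) ||
        ((!(w == v) || par) && dfs v fuel w (al &&& (16383 ^^^ row ADJ x)) (!par))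

/-- search for chordless cycles of length at least `5` (of odd length if `o`). -/
def cyc (A : ℕ) (o : Bool) : ℕ → ℕ → ℕ → ℕ → ℕ → Bool
  | 0, _, _, _, _ => false
  | fuel + 1, i, x, al, cl =>
    (Nat.blt i 3 || (o && i % 2 == 0) || (cl &&& row A x) == 0) &&
    (List.range 14).all fun w =>
      !((al &&& row A x).testBit w) ||
        cyc A o fuel (i + 1) w (al &&& (16383 ^^^ row A x))
          (if i = 0 then cl else cl &&& (16383 ^^^ row A x))

/-- the set `m` is a clique. -/
def cliqueB (m : ℕ) : Bool := nonadj.all fun q => !(m.testBit q.1 && m.testBit q.2)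

/-- the set `m` has an even pair. -/
def evenB (m : ℕ) : Bool :=
  nonadj.any fun q => m.testBit q.1 && m.testBit q.2 && dfs q.2 15 q.1 m false

/-- `p` holds for all numbers in `[a, a + 2^d)` which contain no mask of `bl` (level lists). -/
def gen (bl : ℕ → List ℕ) (p : ℕ → Bool) : ℕ → ℕ → Bool
  | 0, a => p a
  | d + 1, a => gen bl p d a &&
      ((bl d).any (fun q => ((a + 2 ^ d) &&& q) == q) || gen bl p d (a + 2 ^ d))

theorem testBit_add_high {a d r j : ℕ} (ha : 2 ^ d ∣ a) (hr : r < 2 ^ d) (hj : d ≤ j) :
    (a + r).testBit j = a.testBit j := by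
  obtain ⟨c, rfl⟩ := ha
  rw [Nat.testBit_two_pow_mul_add _ hr, Nat.testBit_two_pow_mul]
  simp [hj, Nat.not_lt.mpr hj]

theorem testBit_low {a d j : ℕ} (ha : 2 ^ d ∣ a) (hj : j < d) : a.testBit j = false := by
  obtain ⟨c, rfl⟩ := ha
  rw [Nat.testBit_two_pow_mul]
  simp [Nat.not_le.mpr hj]

theorem land_eq_iff {m q : ℕ} : m &&& q = q ↔ ∀ j, q.testBit j = true → m.testBit j = true := by
  constructor
  · intro h j hj
    rw [← h, Nat.testBit_and, Bool.and_eq_true] at hj
    exact hj.1
  · intro h
    apply Nat.eq_of_testBit_eq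
    intro j
    rw [Nat.testBit_and]
    cases hq : q.testBit j
    · simp
    · simp [h j hq]

theorem gen_sound (bl : ℕ → List ℕ) (p : ℕ → Bool) (d a : ℕ) (h : gen bl p d a = true)
    (ha : 2 ^ d ∣ a) (m : ℕ) (h1 : a ≤ m) (h2 : m < a + 2 ^ d) :
    p m = true ∨ ∃ d', ∃ q ∈ bl d', m &&& q = q := by
  induction d generalizing a with
  | zero =>
    have : m = a := by simpa using (by omega : m = a)
    subst this
    exact Or.inl h
  | succ d ih =>
    unfold gen at h
    rw [Bool.and_eq_true, Bool.or_eq_true] at h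
    have hd : 2 ^ d ∣ a := (pow_dvd_pow 2 (Nat.le_succ d)).trans ha
    rcases Nat.lt_or_ge m (a + 2 ^ d) with h3 | h3
    · exact ih a h.1 hd h1 h3
    · have hd' : 2 ^ d ∣ a + 2 ^ d := Nat.dvd_add hd (dvd_refl _)
      rcases h.2 with h4 | h4
      · right
        rw [List.any_eq_true] at h4
        obtain ⟨q, hq, hq2⟩ := h4
        rw [beq_iff_eq] at hq2
        refine ⟨d, q, hq, ?_⟩
        rw [land_eq_iff] at hq2 ⊢
        intro j hj
        have h5 := hq2 j hj
        rcases Nat.lt_or_ge j d with h6 | h6
        · rw [testBit_low hd' h6] at h5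
          exact absurd h5 (by simp)
        · rw [show m = (a + 2 ^ d) + (m - (a + 2 ^ d)) by omega,
            testBit_add_high hd' (by rw [pow_succ] at h2; omega) h6]
          exact h5
      · exact ih (a + 2 ^ d) h4 hd' h3 (by rw [pow_succ] at h2; omega)

theorem main_check : gen (fun d => badLv.getD d []) (fun m => cliqueB m || evenB m) 14 0 = true := by
  decide +kernel

theorem cyc_check : (List.range 14).all (fun u => cyc ADJ true 15 0 u 16383 (row ADJ u)) = true := by
  decide +kernel

theorem ccyc_check : (List.range 14).all (fun u => cyc CADJ false 15 0 u 16383 (row CADJ u)) = true := by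
  decide +kernel

end Pool.Agent.Lib.MP_66ff79_co
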