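import Mathlib

/-!
# The graph on 14 vertices (MP_66ff79_co): data
-/

set_option autoImplicit false

namespace Pool.Agent.Lib.MP_66ff79_co

/-- the adjacency matrix, packed: row `i` is in the bits `14 i, ..., 14 i + 13`. -/
def ADJ : ℕ := 18017004896036704939710131686900174293609343710610253882488

/-- the adjacency matrix of the complement. -/
def CADJ : ℕ := 32198276444746395596278753774893068368827810375710386969478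

/-- the row `x` of a packed matrix. -/
def row (A x : ℕ) : ℕ := (A >>> (14 * x)) &&& 16383

/-- claws (centre first). -/
def claws : List (ℕ × ℕ × ℕ × ℕ) := [(3, 0, 1, 8), (3, 0, 1, 11), (10, 0, 1, 8), (13, 0, 1, 8), (10, 0, 1, 11), (13, 0, 1, 11), (3, 0, 8, 12), (6, 0, 7, 9), (6, 0, 7, 12), (10, 0, 7, 8), (13, 0, 8, 9), (1, 2, 3, 10), (1, 2, 10, 13), (3, 1, 4, 11), (1, 3, 7, 9), (1, 3, 9, 10), (13, 1, 4, 11), (1, 5, 7, 9), (1, 5, 7, 12), (1, 7, 12, 13), (1, 10, 12, 13), (6, 2, 3, 10), (6, 2, 10, 13), (3, 4, 6, 11), (3, 5, 6, 8), (3, 5, 6, 11), (3, 5, 8, 12), (6, 3, 7, 9), (6, 3, 9, 10), (11, 3, 7, 9), (11, 3, 9, 10), (13, 4, 6, 11), (10, 5, 6, 8), (13, 5, 6, 8), (10, 5, 6, 11), (13, 5, 6, 11), (10, 5, 7, 8), (13, 5, 8, 9), (6, 7, 12, 13), (6, 10, 12, 13), (11, 7, 8, 9), (11, 7, 8, 12), (11, 7, 12, 13), (11, 10, 12, 13)]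

/-- diamonds (the two non-adjacent vertices last). -/
def diams : List (ℕ × ℕ × ℕ × ℕ) := [(3, 5, 0, 1), (3, 6, 0, 1), (3, 13, 0, 1), (5, 10, 0, 1), (5, 13, 0, 1), (6, 10, 0, 1), (6, 13, 0, 1), (0, 3, 4, 6), (3, 4, 0, 8), (0, 3, 5, 6), (0, 5, 3, 10), (0, 6, 3, 10), (3, 6, 0, 12), (3, 13, 0, 8), (3, 13, 0, 11), (0, 5, 4, 10), (0, 13, 4, 6), (4, 13, 0, 8), (0, 10, 5, 6), (0, 13, 5, 6), (0, 5, 10, 13), (6, 10, 0, 7), (6, 13, 0, 9), (0, 6, 10, 13), (1, 6, 2, 3), (1, 12, 2, 3), (1, 6, 2, 10), (1, 6, 2, 13), (1, 2, 7, 9), (1, 7, 2, 10), (1, 2, 7, 12), (1, 9, 2, 13), (3, 5, 1, 4), (3, 13, 1, 4), (1, 3, 5, 6), (1, 5, 3, 10), (1, 3, 5, 12), (1, 6, 3, 7), (1, 6, 3, 9), (1, 6, 3, 10), (3, 13, 1, 8), (1, 12, 3, 9), (1, 13, 3, 9), (3, 12, 1, 11), (3, 13, 1, 11), (1, 3, 12, 13), (5, 13, 1, 4), (1, 10, 5, 6), (1, 13, 5, 6), (1, 10, 5,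 7), (1, 13, 5, 9), (1, 5, 10, 13), (1, 6, 7, 9), (1, 6, 7, 12), (1, 6, 7, 13), (1, 6, 9, 10), (1, 6, 10, 12), (1, 6, 10, 13), (1, 6, 12, 13), (7, 10, 1, 11), (9, 12, 1, 11), (9, 13, 1, 11), (1, 9, 12, 13), (6, 12, 2, 3), (2, 6, 7, 9), (6, 7, 2, 10), (2, 6, 7, 12), (6, 9, 2, 13), (9, 12, 2, 11), (3, 4, 5, 8), (3, 13, 4, 6), (3, 8, 4, 11), (3, 13, 4, 11), (3, 13, 5, 6), (3, 13, 5, 8), (3, 13, 5, 11), (3, 13, 6, 8), (6, 12, 3, 9), (6, 13, 3, 9), (3, 12, 6, 11), (3, 13, 6, 11), (3, 6, 12, 13), (8, 11, 3, 10), (3, 11, 8, 12), (11, 12, 3, 9), (11, 13, 3, 9), (3, 11, 12, 13), (4, 13, 5, 8), (8, 13, 4, 11), (7, 10, 6, 11), (9, 12, 6, 11), (9, 13, 6, 11), (6, 9, 12, 13), (10, 11, 7, 8), (11, 13, 8, 9), (8, 11, 10, 13), (9, 11, 12, 13)]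

/-- the sets of four vertices inducing a claw or a diamond, as masks. -/
def badMasks : List ℕ := [267, 2059, 1283, 8451, 3075, 10243, 4361, 705, 4289, 1409, 8961, 1038, 9222, 2074, 650, 1546, 10258, 674, 4258, 12418, 13314, 1100, 9284, 2136, 360, 2152, 4392, 712, 1608, 2696, 3592, 10320, 1376, 8544, 3168, 10336, 1440, 8992, 12480, 13376, 2944, 6528, 14464, 15360, 43, 75, 8203, 1059, 8227, 1091, 8259, 89, 281, 105, 1065, 1097, 4169, 8457, 10249, 1073, 8273, 8465, 1121, 8289, 9249, 1217, 8769, 9281, 78, 4110, 1094, 8262, 646, 1158, 4230, 8710, 58, 8218, 106, 1066, 4138, 202, 586, 1098, 8458, 4618, 8714, 6154, 10250, 12298, 8242, 1122, 8290, 1186, 8738, 9250, 706, 4290, 8386, 1602, 5186, 9282, 12354, 3202, 6658, 10754, 12802, 4172, 708, 1220, 4292, 8772, 6660, 312, 8280, 2328, 10264, 8296, 8488, 10280, 8520, 4680, 8776,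 6216, 10312, 12360, 3336, 6408, 6664, 10760, 14344, 8496, 10512, 3264, 6720, 10816, 12864, 3456, 11008, 11520, 14848]

/-- the same masks, sorted by their lowest vertex. -/
def badLv : List (List ℕ) := [[267, 2059, 1283, 8451, 3075, 10243, 4361, 705, 4289, 1409, 8961, 43, 75, 8203, 1059, 8227, 1091, 8259, 89, 281, 105, 1065, 1097, 4169, 8457, 10249, 1073, 8273, 8465, 1121, 8289, 9249, 1217, 8769, 9281],
  [1038, 9222, 2074, 650, 1546, 10258, 674, 4258, 12418, 13314, 78, 4110, 1094, 8262, 646, 1158, 4230, 8710, 58, 8218, 106, 1066, 4138, 202, 586, 1098, 8458, 4618, 8714, 6154, 10250, 12298, 8242, 1122, 8290, 1186, 8738, 9250, 706, 4290, 8386, 1602, 5186, 9282, 12354, 3202, 6658, 10754, 12802],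
  [1100, 9284, 4172, 708, 1220, 4292, 8772, 6660],
  [2136, 360, 2152, 4392, 712, 1608, 2696, 3592, 312, 8280, 2328, 10264, 8296, 8488, 10280, 8520, 4680, 8776, 6216, 10312, 12360, 3336, 6408, 6664, 10760, 14344],
  [10320, 8496, 10512],
  [1376, 8544, 3168, 10336, 1440, 8992],
  [12480, 13376, 3264, 6720, 10816, 12864],
  [2944, 6528, 14464, 3456],
  [11008, 11520],
  [14848],
  [15360],
  [],
  [],
  []]

/-- the pairs of non-adjacent vertices. -/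
def nonadj : List (ℕ × ℕ) := [(7, 9), (8, 0), (3, 10), (7, 12), (1, 11), (5, 8), (5, 11), (12, 10), (4, 6), (2, 13), (1, 0), (3, 9), (8, 1), (7, 3), (4, 11), (5, 6), (4, 1), (6, 11), (2, 11), (9, 4), (8, 6), (12, 0), (7, 5), (2, 5), (9, 5), (0, 11), (12, 5), (2, 10), (10, 13), (2, 3), (7, 13), (8, 2), (12, 13), (0, 2), (9, 10), (8, 12), (4, 2), (4, 10), (7, 4), (8, 9), (0, 9), (7, 8), (4, 12), (0, 7)]

/-- the lists of neighbours. -/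
def nbrs : List (List ℕ) := [[3, 4, 5, 6, 10, 13],
  [2, 3, 5, 6, 7, 9, 10, 12, 13],
  [1, 6, 7, 9, 12],
  [0, 1, 4, 5, 6, 8, 11, 12, 13],
  [0, 3, 5, 8, 13],
  [0, 1, 3, 4, 10, 13],
  [0, 1, 2, 3, 7, 9, 10, 12, 13],
  [1, 2, 6, 10, 11],
  [3, 4, 10, 11, 13],
  [1, 2, 6, 11, 12, 13],
  [0, 1, 5, 6, 7, 8, 11],
  [3, 7, 8, 9, 10, 12, 13],
  [1, 2, 3, 6, 9, 11],
  [0, 1, 3, 4, 5, 6, 8, 9, 11]]

/-- for each ordered pair of distinct vertices an odd chordless path (index `14 u + v`). -/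
def certs : List (List ℕ) := [[],
  [0, 4, 8, 11, 7, 1],
  [0, 3, 1, 2],
  [0, 3],
  [0, 4],
  [0, 5],
  [0, 6],
  [0, 3, 1, 7],
  [0, 5, 1, 7, 11, 8],
  [0, 3, 1, 9],
  [0, 10],
  [0, 4, 8, 11],
  [0, 5, 1, 12],
  [0, 13],
  [1, 7, 11, 8, 4, 0],
  [],
  [1, 2],
  [1, 3],
  [1, 6, 0, 4],
  [1, 5],
  [1, 6],
  [1, 7],
  [1, 5, 4, 8],
  [1, 9],
  [1, 10],
  [1, 6, 0, 4, 8, 11],
  [1, 12],
  [1, 13],
  [2, 1, 3, 0],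
  [2, 1],
  [],
  [2, 7, 11, 3],
  [2, 1, 3, 4],
  [2, 6, 0, 5],
  [2, 6],
  [2, 7],
  [2, 1, 3, 8],
  [2, 9],
  [2, 9, 11, 10],
  [2, 1, 3, 11],
  [2, 12],
  [2, 7, 11, 13],
  [3, 0],
  [3, 1],
  [3, 11, 7, 2],
  [],
  [3, 4],
  [3, 5],
  [3, 6],
  [3, 0, 10, 7],
  [3, 8],
  [3, 0, 10, 7, 2, 9],
  [3, 13, 9, 2, 7, 10],
  [3, 11],
  [3, 12],
  [3, 13],
  [4, 0],
  [4, 0, 6, 1],
  [4, 0, 6, 2],
  [4, 3],
  [],
  [4, 5],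
  [4, 5, 1, 6],
  [4, 0, 6, 7],
  [4, 8],
  [4, 0, 6, 9],
  [4, 3, 1, 10],
  [4, 0, 10, 11],
  [4, 0, 6, 12],
  [4, 13],
  [5, 0],
  [5, 1],
  [5, 0, 6, 2],
  [5, 3],
  [5, 4],
  [],
  [5, 4, 8, 11, 7, 6],
  [5, 0, 6, 7],
  [5, 0, 6, 7, 11, 8],
  [5, 0, 6, 9],
  [5, 10],
  [5, 1, 7, 11],
  [5, 0, 6, 12],
  [5, 13],
  [6, 0],
  [6, 1],
  [6, 2],
  [6, 3],
  [6, 1, 5, 4],
  [6, 7, 11, 8, 4, 5],
  [],
  [6, 7],
  [6, 0, 4, 8],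
  [6, 9],
  [6, 10],
  [6, 1, 5, 4, 8, 11],
  [6, 12],
  [6, 13],
  [7, 1, 3, 0],
  [7, 1],
  [7, 2],
  [7, 2, 12, 3],
  [7, 1, 3, 4],
  [7, 6, 0, 5],
  [7, 6],
  [],
  [7, 1, 3, 8],
  [7, 10, 0, 3, 12, 9],
  [7, 10],
  [7, 11],
  [7, 10, 0, 13, 9, 12],
  [7, 2, 9, 13],
  [8, 11, 7, 1, 5, 0],
  [8, 4, 5, 1],
  [8, 3, 1, 2],
  [8, 3],
  [8, 4],
  [8, 11, 7, 6, 0, 5],
  [8, 4, 0, 6],
  [8, 3, 1, 7],
  [],
  [8, 3, 1, 9],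
  [8, 10],
  [8, 11],
  [8, 10, 1, 12],
  [8, 13],
  [9, 1, 3, 0],
  [9, 1],
  [9, 2],
  [9, 2, 7, 10, 0, 3],
  [9, 1, 3, 4],
  [9, 6, 0, 5],
  [9, 6],
  [9, 12, 3, 0, 10, 7],
  [9, 1, 3, 8],
  [],
  [9, 2, 7, 10],
  [9, 11],
  [9, 12],
  [9, 13],
  [10, 0],
  [10, 1],
  [10, 11, 9, 2],
  [10, 7, 2, 9, 13, 3],
  [10, 1, 3, 4],
  [10, 5],
  [10, 6],
  [10, 7],
  [10, 8],
  [10, 0, 13, 9],
  [],
  [10, 11],
  [10, 0, 3, 12],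
  [10, 7, 2, 12, 3, 13],
  [11, 7, 6, 0],
  [11, 8, 4, 0, 6, 1],
  [11, 3, 1, 2],
  [11, 3],
  [11, 10, 0, 4],
  [11, 7, 1, 5],
  [11, 8, 4, 5, 1, 6],
  [11, 7],
  [11, 8],
  [11, 9],
  [11, 10],
  [],
  [11, 12],
  [11, 13],
  [12, 1, 5, 0],
  [12, 1],
  [12, 2],
  [12, 3],
  [12, 1, 5, 4],
  [12, 6, 0, 5],
  [12, 6],
  [12, 9, 13, 0, 10, 7],
  [12, 1, 10, 8],
  [12, 9],
  [12, 2, 7, 10],
  [12, 11],
  [],
  [12, 2, 7, 10, 0, 13],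
  [13, 0],
  [13, 1],
  [13, 3, 12, 2],
  [13, 3],
  [13, 4],
  [13, 5],
  [13, 6],
  [13, 0, 10, 7],
  [13, 8],
  [13, 9],
  [13, 3, 12, 2, 7, 10],
  [13, 11],
  [13, 0, 10, 7, 2, 12],
  []]

end Pool.Agent.Lib.MP_66ff79_co
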