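import Pool.Agent.Lib.MP_66ff79_co.Sound

/-!
# The counterexample (MP_66ff79_co)
-/

set_option autoImplicit false
open SimpleGraph

namespace Pool.Agent.Lib.MP_66ff79_co

theorem ADJ_symm : ∀ i j : Fin 14, (row ADJ i).testBit j = true → (row ADJ j).testBit i = true := by
  decide +kernel

theorem ADJ_irrefl : ∀ i : Fin 14, ¬ (row ADJ i).testBit i = true := by
  decide +kernel

theorem CADJ_eq : ∀ i j : Fin 14, (row CADJ i).testBit j = true ↔
    (i ≠ j ∧ ¬ (row ADJ i).testBit j = true) := by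
  decide +kernel

/-- the graph on 14 vertices. -/
def GG : SimpleGraph (Fin 14) where
  Adj i j := (row ADJ i).testBit j = true
  symm := ⟨fun i j h => ADJ_symm i j h⟩
  loopless := ⟨fun i h => ADJ_irrefl i h⟩

theorem GG_adj (i j : Fin 14) : GG.Adj i j ↔ (row ADJ i).testBit j = true := Iff.rfl

theorem GGc_adj (i j : Fin 14) : GGᶜ.Adj i j ↔ (row CADJ i).testBit j = true := by
  rw [CADJ_eq, compl_adj, GG_adj]

/-! ### cycles -/

/-- the values of a map `Fin m → Fin 14` as a function on `ℕ`. -/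
def ext {m : ℕ} (f : Fin m → Fin 14) (j : ℕ) : ℕ := if h : j < m then (f ⟨j, h⟩ : ℕ) else 0

theorem ext_lt {m : ℕ} (f : Fin m → Fin 14) (j : ℕ) : ext f j < 14 := by
  unfold ext
  split_ifs
  · exact (f _).2
  · norm_num

theorem no_cycle {A : ℕ} {H : SimpleGraph (Fin 14)} (hA : ∀ i j : Fin 14, H.Adj i j ↔ (row A i).testBit j = true)
    {o : Bool} (hchk : (List.range 14).all (fun u => cyc A o 15 0 u 16383 (row A u)) = true)
    {m : ℕ} (hm : 5 ≤ m) (ho : o = true → Odd m) (f : cycleGraph m ↪g H) : False := by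
  have hm14 : m ≤ 14 := by
    have := Fintype.card_le_of_injective f f.injective
    simpa using this
  rw [List.all_eq_true] at hchk
  have h0 := hchk (ext f 0) (List.mem_range.mpr (ext_lt f 0))
  refine cyc_sound hm hm14 (fun h => Nat.odd_iff.mp (ho h)) (fun j _ => ext_lt f j) ?_ h0
  intro i j hij hj
  have hi : i < m := by omega
  have e1 : ext f i = (f ⟨i, hi⟩ : ℕ) := by unfold ext; rw [dif_pos hi]
  have e2 : ext f j = (f ⟨j, hj⟩ : ℕ) := by unfold ext; rw [dif_pos hj]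
  rw [e1, e2, ← hA, f.map_adj_iff, cycleGraph_adj']
  have s1 : ((⟨i, hi⟩ : Fin m) - ⟨j, hj⟩).val = m + i - j := by
    rw [Fin.coe_sub_iff_lt.mpr (by simpa using hij)]
  have s2 : ((⟨j, hj⟩ : Fin m) - ⟨i, hi⟩).val = j - i := by
    rw [Fin.coe_sub_iff_le.mpr (by simpa using hij.le)]
  rw [s1, s2]
  omega

/-! ### no even pair -/

/-- correctness of a certificate. -/
def okCert (u v : ℕ) (l : List ℕ) : Bool :=
  l.length % 2 == 0 && Nat.blt 0 l.length && l.getD 0 0 == u && l.getD (l.length - 1) 0 == v &&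
  (List.range l.length).all fun i => Nat.blt (l.getD i 0) 14 &&
    (List.range l.length).all fun j => ((row ADJ (l.getD i 0)).testBit (l.getD j 0) == (i + 1 == j || j + 1 == i)) &&
      (!(l.getD i 0 == l.getD j 0) || i == j)

theorem cert_check : ∀ u v : Fin 14, u ≠ v → okCert u v (certs.getD (14 * u + v) []) = true := by
  decide +kernel

theorem exists_odd_path (u v : Fin 14) (huv : u ≠ v) : ∃ (k : ℕ) (f : pathGraph (k + 1) ↪g GG),
    f 0 = u ∧ f (Fin.last k) = v ∧ ¬ Even k := by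
  have h := cert_check u v huv
  set l := certs.getD (14 * u + v) [] with hl
  unfold okCert at h
  simp only [Bool.and_eq_true, beq_iff_eq, List.all_eq_true, List.mem_range, Nat.blt_eq,
    Bool.or_eq_true, Bool.not_eq_true', beq_eq_false_iff_ne] at h
  obtain ⟨⟨⟨⟨h1, h2⟩, h3⟩, h4⟩, h5⟩ := h
  obtain ⟨k, hk⟩ : ∃ k, l.length = k + 1 := ⟨l.length - 1, by omega⟩
  have hlt : ∀ i : Fin (k + 1), l.getD i 0 < 14 := fun i => (h5 i (by rw [hk]; exact i.2)).1
  let f : Fin (k + 1) → Fin 14 := fun i => ⟨l.getD i 0, hlt i⟩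
  have hinj : Function.Injective f := by
    intro i j hij
    have e := congrArg Fin.val hij
    have := ((h5 i (by rw [hk]; exact i.2)).2 j (by rw [hk]; exact j.2)).2
    rcases this with h | h
    · exact absurd e h
    · exact Fin.ext h
  refine ⟨k, ⟨⟨f, hinj⟩, ?_⟩, ?_, ?_, ?_⟩
  · intro i j
    show GG.Adj (f i) (f j) ↔ _
    rw [GG_adj, pathGraph_adj]
    have := ((h5 i (by rw [hk]; exact i.2)).2 j (by rw [hk]; exact j.2)).1
    show (row ADJ (l.getD i 0)).testBit (l.getD j 0) = true ↔ _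
    rw [this]
    simp [Bool.or_eq_true]
  · show f 0 = u
    exact Fin.ext (by simpa [f] using h3)
  · show f (Fin.last k) = v
    apply Fin.ext
    show l.getD k 0 = v
    rw [← h4, hk]
    rfl
  · rw [Nat.even_iff]
    omega

/-! ### the main step -/

theorem nonadj_check : ∀ u v : Fin 14, u ≠ v → ¬ (row ADJ u).testBit v = true →
    ((u : ℕ), (v : ℕ)) ∈ nonadj ∨ ((v : ℕ), (u : ℕ)) ∈ nonadj := by
  decide +kernel

theorem nonadj_check2 : ∀ q ∈ nonadj, q.1 < 14 ∧ q.2 < 14 ∧ q.1 ≠ q.2 := by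
  decide +kernel

/-- adjacency on numbers. -/
def adB (i j : ℕ) : Bool := (row ADJ i).testBit j

def isClaw (m a b c d : ℕ) : Bool :=
  m.testBit a && m.testBit b && m.testBit c && m.testBit d && adB a b && adB a c && adB a d &&
    !adB b c && !adB b d && !adB c d && !(b == c) && !(b == d) && !(c == d) &&
    Nat.blt a 14 && Nat.blt b 14 && Nat.blt c 14 && Nat.blt d 14

def isDiam (m a b c d : ℕ) : Bool :=
  m.testBit a && m.testBit b && m.testBit c && m.testBit d && adB a b && adB a c && adB b c &&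
    adB a d && adB b d && !adB c d && !(c == d) &&
    Nat.blt a 14 && Nat.blt b 14 && Nat.blt c 14 && Nat.blt d 14

theorem bad_check : badLv.length = 14 ∧ ∀ l ∈ badLv, ∀ q ∈ l,
    (∃ t ∈ claws, isClaw q t.1 t.2.1 t.2.2.1 t.2.2.2 = true) ∨
    (∃ t ∈ diams, isDiam q t.1 t.2.1 t.2.2.1 t.2.2.2 = true) := by
  decide +kernel

/-- Every claw-free and diamond-free set of vertices of `GG` which is not a clique has an even pair. -/
theorem free_even (T : Set (Fin 14)) (hcl : ¬ GG.IsClique T)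
    (hclaw : ∀ a ∈ T, ∀ b ∈ T, ∀ c ∈ T, ∀ d ∈ T, GG.Adj a b → GG.Adj a c → GG.Adj a d →
      b ≠ c → b ≠ d → c ≠ d → ¬ GG.Adj b c → ¬ GG.Adj b d → ¬ GG.Adj c d → False)
    (hdiam : ∀ a ∈ T, ∀ b ∈ T, ∀ c ∈ T, ∀ d ∈ T, GG.Adj a b → GG.Adj a c → GG.Adj b c →
      GG.Adj a d → GG.Adj b d → c ≠ d → ¬ GG.Adj c d → False) :
    ∃ u ∈ T, ∃ v ∈ T, u ≠ v ∧ ∀ (k : ℕ) (f : pathGraph (k + 1) ↪g GG),
      (∀ i, f i ∈ T) → f 0 = u → f (Fin.last k) = v → Even k := by
  classical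
  set m := Nat.ofBits (fun i : Fin 14 => decide (i ∈ T)) with hm
  have hm2 : m < 2 ^ 14 := Nat.ofBits_lt_two_pow _
  have hmT : ∀ i : Fin 14, m.testBit i = true ↔ i ∈ T := by
    intro i
    rw [hm, Nat.testBit_ofBits_lt _ _ i.2]
    simp
  have hmT' : ∀ i (h : i < 14), m.testBit i = true → (⟨i, h⟩ : Fin 14) ∈ T := fun i h h2 =>
    (hmT ⟨i, h⟩).mp h2
  have hne : ∀ {i j : ℕ} (hi : i < 14) (hj : j < 14), i ≠ j → (⟨i, hi⟩ : Fin 14) ≠ ⟨j, hj⟩ := by
    intro i j hi hj h h2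
    exact h (congrArg Fin.val h2)
  rcases gen_sound _ _ 14 0 main_check (dvd_zero _) m (Nat.zero_le _) (by simpa using hm2) with h | h
  · rw [Bool.or_eq_true] at h
    rcases h with h | h
    · exfalso
      apply hcl
      intro u hu v hv huv
      by_contra hadj
      unfold cliqueB at h
      rw [List.all_eq_true] at h
      have hu' := (hmT u).mpr hu
      have hv' := (hmT v).mpr hv
      rcases nonadj_check u v huv hadj with h1 | h1
      · have := h _ h1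
        simp only [hu', hv', Bool.and_self, Bool.not_true] at this
        exact absurd this (by simp)
      · have := h _ h1
        simp only [hu', hv', Bool.and_self, Bool.not_true] at this
        exact absurd this (by simp)
    · unfold evenB at h
      rw [List.any_eq_true] at h
      obtain ⟨q, hq, hq2⟩ := h
      rw [Bool.and_eq_true, Bool.and_eq_true] at hq2
      obtain ⟨⟨h1, h2⟩, h3⟩ := hq2
      obtain ⟨l1, l2, l3⟩ := nonadj_check2 q hq
      refine ⟨⟨q.1, l1⟩, hmT' _ l1 h1, ⟨q.2, l2⟩, hmT' _ l2 h2, hne l1 l2 l3, ?_⟩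
      intro k f hf hf0 hfl
      have hk14 : k < 15 := by
        have := Fintype.card_le_of_injective f f.injective
        simp at this
        omega
      have hg : ∀ j (hj : j < k + 1), ext f j = (f ⟨j, hj⟩ : ℕ) := fun j hj => by
        unfold ext; rw [dif_pos hj]
      have g0 : ext f 0 = q.1 := by
        rw [hg 0 (by omega)]
        exact congrArg Fin.val hf0
      have gk : ext f k = q.2 := by
        rw [hg k (by omega)]
        exact congrArg Fin.val hfl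
      have hk1 : 1 ≤ k := by
        by_contra h0
        have : k = 0 := by omega
        subst this
        exact l3 (g0.symm.trans gk)
      refine dfs_sound (g := ext f) (S := m) (v := q.2) (fun j _ => ext_lt f j) ?_ ?_ gk hk1 hk14 ?_
      · intro j hj
        rw [hg j (by omega), hmT]
        exact hf _
      · intro i j hij hj
        rw [hg i (by omega), hg j (by omega), ← GG_adj, f.map_adj_iff, pathGraph_adj]
        simp only
        omega
      · rw [g0]; exact h3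
  · exfalso
    obtain ⟨d', q, hq, hmq⟩ := h
    rw [land_eq_iff] at hmq
    have hd : d' < badLv.length := by
      by_contra h0
      rw [List.getD_eq_default _ _ (by omega)] at hq
      exact absurd hq (by simp)
    have hl : badLv.getD d' [] ∈ badLv := by
      rw [List.getD_eq_getElem _ _ hd]
      exact List.getElem_mem _
    rcases bad_check.2 _ hl q hq with ⟨t, _, ht⟩ | ⟨t, _, ht⟩
    · unfold isClaw at ht
      simp only [Bool.and_eq_true, Bool.not_eq_true', beq_eq_false_iff_ne, Nat.blt_eq] at ht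
      obtain ⟨⟨⟨⟨⟨⟨⟨⟨⟨⟨⟨⟨⟨⟨⟨⟨t1, t2⟩, t3⟩, t4⟩, t5⟩, t6⟩, t7⟩, t8⟩, t9⟩, t10⟩, t11⟩, t12⟩, t13⟩, b1⟩, b2⟩, b3⟩, b4⟩ := ht
      unfold adB at t5 t6 t7 t8 t9 t10
      exact hclaw ⟨_, b1⟩ (hmT' _ b1 (hmq _ t1)) ⟨_, b2⟩ (hmT' _ b2 (hmq _ t2)) ⟨_, b3⟩
        (hmT' _ b3 (hmq _ t3)) ⟨_, b4⟩ (hmT' _ b4 (hmq _ t4)) t5 t6 t7 (hne _ _ t11) (hne _ _ t12)
        (hne _ _ t13) (by rw [GG_adj]; simp [t8]) (by rw [GG_adj]; simp [t9]) (by rw [GG_adj]; simp [t10])
    · unfold isDiam at ht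
      simp only [Bool.and_eq_true, Bool.not_eq_true', beq_eq_false_iff_ne, Nat.blt_eq] at ht
      obtain ⟨⟨⟨⟨⟨⟨⟨⟨⟨⟨⟨⟨⟨⟨t1, t2⟩, t3⟩, t4⟩, t5⟩, t6⟩, t7⟩, t8⟩, t9⟩, t10⟩, t11⟩, b1⟩, b2⟩, b3⟩, b4⟩ := ht
      unfold adB at t5 t6 t7 t8 t9 t10
      exact hdiam ⟨_, b1⟩ (hmT' _ b1 (hmq _ t1)) ⟨_, b2⟩ (hmT' _ b2 (hmq _ t2)) ⟨_, b3⟩
        (hmT' _ b3 (hmq _ t3)) ⟨_, b4⟩ (hmT' _ b4 (hmq _ t4)) t5 t6 t7 t8 t9 (hne _ _ t11)
        (by rw [GG_adj]; simp [t10])

/-- No line graph of a bipartite graph which is an induced subgraph of `GG` has an induced subgraph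
without an even pair. -/
theorem linegraph_even {n m : ℕ} (H : SimpleGraph (Fin n)) (B : SimpleGraph (Fin m)) (hB : B.Colorable 2)
    (e : B.lineGraph ≃g H) (φ : H ↪g GG) (S : Set (Fin n)) (hS : ¬ H.IsClique S) :
    ∃ u ∈ S, ∃ v ∈ S, u ≠ v ∧ ∀ (k : ℕ) (f : pathGraph (k + 1) ↪g H),
      (∀ i, f i ∈ S) → f 0 = u → f (Fin.last k) = v → Even k := by
  have hinj := φ.injective
  have ead : ∀ x y : Fin n, B.lineGraph.Adj (e.symm x) (e.symm y) ↔ H.Adj x y := fun x y =>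
    e.symm.map_adj_iff
  have ene : ∀ x y : Fin n, x ≠ y → e.symm x ≠ e.symm y := fun x y h h2 => h (e.symm.injective h2)
  have c1 : ¬ GG.IsClique (φ '' S) := by
    intro h
    apply hS
    intro x hx y hy hxy
    exact φ.map_adj_iff.mp (h ⟨x, hx, rfl⟩ ⟨y, hy, rfl⟩ (fun h => hxy (hinj h)))
  have c2 : ∀ a ∈ φ '' S, ∀ b ∈ φ '' S, ∀ c ∈ φ '' S, ∀ d ∈ φ '' S, GG.Adj a b → GG.Adj a c → GG.Adj a d →
      b ≠ c → b ≠ d → c ≠ d → ¬ GG.Adj b c → ¬ GG.Adj b d → ¬ GG.Adj c d → False := by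
    rintro _ ⟨a, _, rfl⟩ _ ⟨b, _, rfl⟩ _ ⟨c, _, rfl⟩ _ ⟨d, _, rfl⟩ h1 h2 h3 n1 n2 n3 h4 h5 h6
    rw [φ.map_adj_iff] at h1 h2 h3 h4 h5 h6
    refine lineGraph_no_claw B (e.symm a) (e.symm b) (e.symm c) (e.symm d) ((ead _ _).mpr h1)
      ((ead _ _).mpr h2) ((ead _ _).mpr h3) (ene _ _ fun h => n1 (by rw [h]))
      (ene _ _ fun h => n2 (by rw [h])) (ene _ _ fun h => n3 (by rw [h])) ?_ ?_ ?_
    · rw [ead]; exact h4
    · rw [ead]; exact h5
    · rw [ead]; exact h6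
  have c3 : ∀ a ∈ φ '' S, ∀ b ∈ φ '' S, ∀ c ∈ φ '' S, ∀ d ∈ φ '' S, GG.Adj a b → GG.Adj a c → GG.Adj b c →
      GG.Adj a d → GG.Adj b d → c ≠ d → ¬ GG.Adj c d → False := by
    rintro _ ⟨a, _, rfl⟩ _ ⟨b, _, rfl⟩ _ ⟨c, _, rfl⟩ _ ⟨d, _, rfl⟩ h1 h2 h3 h4 h5 n1 h6
    rw [φ.map_adj_iff] at h1 h2 h3 h4 h5 h6
    refine lineGraph_no_diamond B hB (e.symm a) (e.symm b) (e.symm c) (e.symm d) ((ead _ _).mpr h1)
      ((ead _ _).mpr h2) ((ead _ _).mpr h3) ((ead _ _).mpr h4) ((ead _ _).mpr h5)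
      (ene _ _ fun h => n1 (by rw [h])) ?_
    rw [ead]; exact h6
  obtain ⟨_, ⟨u, hu, rfl⟩, _, ⟨v, hv, rfl⟩, huv, hk⟩ := free_even (φ '' S) c1 c2 c3
  refine ⟨u, hu, v, hv, fun h => huv (by rw [h]), ?_⟩
  intro k f hf hf0 hfl
  refine hk k (f.trans φ) (fun i => ⟨f i, hf i, rfl⟩) ?_ ?_
  · show φ (f 0) = φ u
    rw [hf0]
  · show φ (f (Fin.last k)) = φ v
    rw [hfl]

theorem GG_not_sqp : ¬ (∀ S : Set (Fin 14), ¬ GG.IsClique S →
    ∃ u ∈ S, ∃ v ∈ S, u ≠ v ∧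
      ∀ (k : ℕ) (f : SimpleGraph.pathGraph (k + 1) ↪g GG),
        (∀ i, f i ∈ S) → f 0 = u → f (Fin.last k) = v → Even k) := by
  intro h
  have hnc : ¬ GG.IsClique Set.univ := by
    intro h2
    have h3 := h2 (Set.mem_univ 0) (Set.mem_univ 1) (by decide)
    rw [GG_adj] at h3
    revert h3
    decide +kernel
  obtain ⟨u, _, v, _, huv, hk⟩ := h Set.univ hnc
  obtain ⟨k, f, h0, hl, hodd⟩ := exists_odd_path u v huv
  exact hodd (hk k f (fun _ => Set.mem_univ _) h0 hl)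

theorem GG_no_odd_hole : ¬ ∃ m : ℕ, 5 ≤ m ∧ Odd m ∧ Nonempty (cycleGraph m ↪g GG) := by
  rintro ⟨m, hm, hodd, ⟨f⟩⟩
  exact no_cycle GG_adj cyc_check hm (fun _ => hodd) f

theorem GG_no_antihole : ¬ ∃ m : ℕ, 5 ≤ m ∧ Nonempty ((cycleGraph m)ᶜ ↪g GG) := by
  rintro ⟨m, hm, ⟨f⟩⟩
  have f' : cycleGraph m ↪g GGᶜ := by
    refine ⟨f.toEmbedding, ?_⟩
    intro a b
    show GGᶜ.Adj (f a) (f b) ↔ _
    rw [compl_adj, f.map_adj_iff, compl_adj, f.injective.ne_iff]
    constructor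
    · rintro ⟨h1, h2⟩
      by_contra h3
      exact h2 ⟨h1, h3⟩
    · intro h
      exact ⟨h.ne, fun h2 => h2.2 h⟩
  exact no_cycle GGc_adj ccyc_check hm (fun h => absurd h (by simp)) f'

end Pool.Agent.Lib.MP_66ff79_co
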