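import Pool.Agent.Lib.MP_66ff79_co.Check

/-!
# Soundness of the computations (MP_66ff79_co)
-/

set_option autoImplicit false
open SimpleGraph

namespace Pool.Agent.Lib.MP_66ff79_co

theorem full_testBit {j : ℕ} (hj : j < 14) : (16383 : ℕ).testBit j = true := by
  interval_cases j <;> decide

theorem compl_testBit {r j : ℕ} (hj : j < 14) (h : ¬ r.testBit j = true) :
    (16383 ^^^ r).testBit j = true := by
  rw [Nat.testBit_xor, full_testBit hj]
  simp at h
  simp [h]

theorem nbrs_check : ∀ x : Fin 14, ∀ w : Fin 14, (row ADJ x).testBit w = true →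
    (w : ℕ) ∈ nbrs.getD x [] := by
  decide +kernel

theorem mem_nbrs {x w : ℕ} (hx : x < 14) (hw : w < 14) (h : (row ADJ x).testBit w = true) :
    w ∈ nbrs.getD x [] := nbrs_check ⟨x, hx⟩ ⟨w, hw⟩ h

theorem dfs_sound {v S k : ℕ} {g : ℕ → ℕ} (hlt : ∀ j ≤ k, g j < 14)
    (hS : ∀ j ≤ k, S.testBit (g j) = true)
    (hadj : ∀ i j, i < j → j ≤ k → ((row ADJ (g i)).testBit (g j) = true ↔ j = i + 1))
    (hv : g k = v) (hk : 1 ≤ k) (hk14 : k < 15) (h : dfs v 15 (g 0) S false = true) : Even k := by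
  have key : ∀ i, i < k → ∃ al, dfs v (15 - i) (g i) al (i % 2 == 1) = true ∧
      ∀ j, i < j → j ≤ k → al.testBit (g j) = true := by
    intro i
    induction i with
    | zero => intro _; exact ⟨S, h, fun j _ hj => hS j hj⟩
    | succ i ih =>
      intro hi
      obtain ⟨al, h1, h2⟩ := ih (by omega)
      rw [show 15 - i = (15 - (i + 1)) + 1 by omega] at h1
      unfold dfs at h1
      rw [List.all_eq_true] at h1
      have h3 := h1 (g (i + 1)) (mem_nbrs (hlt i (by omega)) (hlt (i + 1) (by omega))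
        ((hadj i (i + 1) (by omega) (by omega)).mpr rfl))
      rw [h2 (i + 1) (by omega) (by omega)] at h3
      simp only [Bool.not_true, Bool.false_or, Bool.and_eq_true] at h3
      refine ⟨al &&& (16383 ^^^ row ADJ (g i)), ?_, ?_⟩
      · have e : ((i + 1) % 2 == 1) = !(i % 2 == 1) := by
          rcases Nat.mod_two_eq_zero_or_one i with h4 | h4
          · have : (i + 1) % 2 = 1 := by omega
            rw [this, h4]; rfl
          · have : (i + 1) % 2 = 0 := by omega
            rw [this, h4]; rfl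
        rw [e]
        exact h3.2
      · intro j hj1 hj2
        rw [Nat.testBit_and, Bool.and_eq_true]
        refine ⟨h2 j (by omega) hj2, compl_testBit (hlt j hj2) ?_⟩
        rw [hadj i j (by omega) hj2]
        omega
  obtain ⟨al, h1, h2⟩ := key (k - 1) (by omega)
  rw [show 15 - (k - 1) = (15 - k) + 1 by omega] at h1
  unfold dfs at h1
  rw [List.all_eq_true] at h1
  have h3 := h1 (g k) (mem_nbrs (hlt (k - 1) (by omega)) (hlt k le_rfl)
    ((hadj (k - 1) k (by omega) le_rfl).mpr (by omega)))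
  rw [h2 k (by omega) le_rfl, hv] at h3
  simp only [Bool.not_true, Bool.false_or, Bool.and_eq_true, beq_self_eq_true, beq_iff_eq] at h3
  rw [Nat.even_iff]
  have := h3.1
  omega

theorem cyc_sound {A m : ℕ} {o : Bool} {g : ℕ → ℕ} (hm : 5 ≤ m) (hm14 : m ≤ 14)
    (ho : o = true → m % 2 = 1) (hlt : ∀ j < m, g j < 14)
    (hadj : ∀ i j, i < j → j < m → ((row A (g i)).testBit (g j) = true ↔ (j = i + 1 ∨ (i = 0 ∧ j = m - 1))))
    (h : cyc A o 15 0 (g 0) 16383 (row A (g 0)) = true) : False := by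
  have key : ∀ i, i ≤ m - 2 → ∃ al cl, cyc A o (15 - i) i (g i) al cl = true ∧
      (∀ j, i < j → j ≤ m - 2 → al.testBit (g j) = true) ∧ cl.testBit (g (m - 1)) = true := by
    intro i
    induction i with
    | zero =>
      intro _
      exact ⟨16383, row A (g 0), h, fun j _ hj => full_testBit (hlt j (by omega)),
        (hadj 0 (m - 1) (by omega) (by omega)).mpr (Or.inr ⟨rfl, rfl⟩)⟩
    | succ i ih =>
      intro hi
      obtain ⟨al, cl, h1, h2, h4⟩ := ih (by omega)
      rw [show 15 - i = (15 - (i + 1)) + 1 by omega] at h1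
      unfold cyc at h1
      rw [Bool.and_eq_true, List.all_eq_true] at h1
      have h3 := h1.2 (g (i + 1)) (List.mem_range.mpr (hlt (i + 1) (by omega)))
      rw [Nat.testBit_and, h2 (i + 1) (by omega) hi,
        (hadj i (i + 1) (by omega) (by omega)).mpr (Or.inl rfl)] at h3
      simp only [Bool.and_self, Bool.not_true, Bool.false_or] at h3
      refine ⟨_, _, h3, ?_, ?_⟩
      · intro j hj1 hj2
        rw [Nat.testBit_and, Bool.and_eq_true]
        refine ⟨h2 j (by omega) hj2, compl_testBit (hlt j (by omega)) ?_⟩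
        rw [hadj i j (by omega) (by omega)]
        omega
      · split_ifs with h5
        · exact h4
        · rw [Nat.testBit_and, Bool.and_eq_true]
          refine ⟨h4, compl_testBit (hlt (m - 1) (by omega)) ?_⟩
          rw [hadj i (m - 1) (by omega) (by omega)]
          omega
  obtain ⟨al, cl, h1, _, h4⟩ := key (m - 2) le_rfl
  rw [show 15 - (m - 2) = (16 - m) + 1 by omega] at h1
  unfold cyc at h1
  rw [Bool.and_eq_true] at h1
  have h5 := h1.1
  rw [Bool.or_eq_true, Bool.or_eq_true] at h5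
  rcases h5 with (h5 | h5) | h5
  · have : m - 2 < 3 := by simpa [Nat.blt_eq] using h5
    omega
  · rw [Bool.and_eq_true, beq_iff_eq] at h5
    have := ho h5.1
    omega
  · rw [beq_iff_eq] at h5
    have h6 : (cl &&& row A (g (m - 2))).testBit (g (m - 1)) = true := by
      rw [Nat.testBit_and, h4, (hadj (m - 2) (m - 1) (by omega) (by omega)).mpr (Or.inl (by omega))]
      rfl
    rw [h5, Nat.zero_testBit] at h6
    exact absurd h6 (by simp)

/-! ### line graphs -/

theorem lineGraph_no_claw {V : Type*} (B : SimpleGraph V) (a b c d : B.edgeSet)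
    (hab : B.lineGraph.Adj a b) (hac : B.lineGraph.Adj a c) (had : B.lineGraph.Adj a d)
    (hbc : b ≠ c) (hbd : b ≠ d) (hcd : c ≠ d)
    (nbc : ¬ B.lineGraph.Adj b c) (nbd : ¬ B.lineGraph.Adj b d) (ncd : ¬ B.lineGraph.Adj c d) : False := by
  rw [lineGraph_adj_iff_exists] at *
  obtain ⟨_, x, hx1, hx2⟩ := hab
  obtain ⟨_, y, hy1, hy2⟩ := hac
  obtain ⟨_, z, hz1, hz2⟩ := had
  have hxy : x ≠ y := fun h => nbc ⟨hbc, x, hx2, h ▸ hy2⟩
  have hxz : x ≠ z := fun h => nbd ⟨hbd, x, hx2, h ▸ hz2⟩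
  have hyz : y ≠ z := fun h => ncd ⟨hcd, y, hy2, h ▸ hz2⟩
  have e := (Sym2.mem_and_mem_iff hxy).mp ⟨hx1, hy1⟩
  rw [e, Sym2.mem_iff] at hz1
  rcases hz1 with h | h
  · exact hxz h.symm
  · exact hyz h.symm

theorem lineGraph_no_diamond {V : Type*} (B : SimpleGraph V) (hB : B.Colorable 2) (a b c d : B.edgeSet)
    (hab : B.lineGraph.Adj a b) (hac : B.lineGraph.Adj a c) (hbc : B.lineGraph.Adj b c)
    (had : B.lineGraph.Adj a d) (hbd : B.lineGraph.Adj b d) (hcd : c ≠ d)
    (ncd : ¬ B.lineGraph.Adj c d) : False := by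
  rw [lineGraph_adj_iff_exists] at *
  obtain ⟨hne, x, hx1, hx2⟩ := hab
  have main : ∀ e : B.edgeSet, (a ≠ e ∧ ∃ v, v ∈ (a : Sym2 V) ∧ v ∈ (e : Sym2 V)) →
      (b ≠ e ∧ ∃ v, v ∈ (b : Sym2 V) ∧ v ∈ (e : Sym2 V)) → x ∈ (e : Sym2 V) := by
    rintro e ⟨_, y, hy1, hy2⟩ ⟨_, z, hz1, hz2⟩
    by_contra hx
    have hxy : x ≠ y := fun h => hx (h ▸ hy2)
    have hxz : x ≠ z := fun h => hx (h ▸ hz2)
    have ea : (a : Sym2 V) = s(x, y) := (Sym2.mem_and_mem_iff hxy).mp ⟨hx1, hy1⟩
    have eb : (b : Sym2 V) = s(x, z) := (Sym2.mem_and_mem_iff hxz).mp ⟨hx2, hz1⟩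
    have hyz : y ≠ z := fun h => hne (Subtype.ext (by rw [ea, eb, h]))
    have ee : (e : Sym2 V) = s(y, z) := (Sym2.mem_and_mem_iff hyz).mp ⟨hy2, hz2⟩
    have a1 : B.Adj x y := by have := a.2; rw [ea] at this; exact this
    have a2 : B.Adj x z := by have := b.2; rw [eb] at this; exact this
    have a3 : B.Adj y z := by have := e.2; rw [ee] at this; exact this
    obtain ⟨C⟩ := hB
    have c1 := C.valid a1
    have c2 := C.valid a2
    have c3 := C.valid a3
    generalize C x = p at *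
    generalize C y = q at *
    generalize C z = r at *
    revert c1 c2 c3
    revert p q r
    decide
  exact ncd ⟨hcd, x, main c hac hbc, main d had hbd⟩

end Pool.Agent.Lib.MP_66ff79_co
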